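import Mathlib
import Pool.Agent.Lib.MP_bf4c7f_nt3.Sums
import Pool.Agent.Lib.MP_bf4c7f_nt3.GGup
import Pool.Agent.Lib.MP_bf4c7f_nt.Tail

/-!
# The sum of `Np R p / p` over the primes `p ≤ m² - 1`
-/

set_option autoImplicit false

namespace Pool.Agent.Lib.MP_bf4c7f

open Finset

lemma Np_nonneg (R p : ℕ) : 0 ≤ Np R p := by
  unfold Np
  apply Finset.sum_nonneg
  intro k _
  positivity

lemma Ls_six : Ls 6 = Real.log 2 + Real.log 3 / 2 + Real.log 5 / 4 := by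
  unfold Ls
  have h1 : (Icc 1 6).filter Nat.Prime = {2, 3, 5} := by decide
  rw [h1, Finset.sum_insert (by decide), Finset.sum_insert (by decide), Finset.sum_singleton]
  push_cast
  norm_num
  ring

/-- the elementary inequality behind the partial summation -/
lemma keySmall (A s s' : ℝ) (h0 : 0 ≤ s) (h1 : s ≤ s') :
    s * ((A * s - 8 / 45 * s ^ 2) - (A * s' - 8 / 45 * s' ^ 2)) ≤
      -((A * s' ^ 2 / 2 - 16 / 135 * s' ^ 3) - (A * s ^ 2 / 2 - 16 / 135 * s ^ 3)) +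
        A / 2 * (s' - s) ^ 2 := by
  have g1 : 0 ≤ (s' - s) ^ 2 * (8 / 135 * (s + 2 * s')) := by
    apply mul_nonneg (sq_nonneg _)
    linarith
  have g2 : -((A * s' ^ 2 / 2 - 16 / 135 * s' ^ 3) - (A * s ^ 2 / 2 - 16 / 135 * s ^ 3)) +
        A / 2 * (s' - s) ^ 2 - s * ((A * s - 8 / 45 * s ^ 2) - (A * s' - 8 / 45 * s' ^ 2)) =
      (s' - s) ^ 2 * (8 / 135 * (s + 2 * s')) := by ring
  linarith

lemma sum_sq_log (b : ℕ) (hb : 6 < b) :
    ∑ n ∈ Ioo 6 b, (Real.log ((n : ℝ) + 1) - Real.log n) ^ 2 ≤ 2 / 13 := by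
  have h1 : ∀ n ∈ Ioo 6 b, (Real.log ((n : ℝ) + 1) - Real.log n) ^ 2 ≤
      (fun j : ℕ => -(1 / ((j : ℝ) - 1 / 2))) (n + 1) - (fun j : ℕ => -(1 / ((j : ℝ) - 1 / 2))) n := by
    intro n hn
    rw [mem_Ioo] at hn
    have hnR : (7 : ℝ) ≤ n := by
      have : 7 ≤ n := by omega
      exact_mod_cast this
    have h2 := log_succ_le n (by omega)
    have h3 := log_succ_ge n (by omega)
    have h4 : (Real.log ((n : ℝ) + 1) - Real.log n) ^ 2 ≤ (1 / (n : ℝ)) ^ 2 :=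
      pow_le_pow_left₀ h3 h2 2
    refine h4.trans ?_
    beta_reduce
    push_cast
    have h5 : -(1 / ((n : ℝ) + 1 - 1 / 2)) - -(1 / ((n : ℝ) - 1 / 2)) =
        1 / ((n : ℝ) ^ 2 - 1 / 4) := by
      have e1 : (n : ℝ) - 1 / 2 ≠ 0 := by linarith
      have e2 : (n : ℝ) + 1 - 1 / 2 ≠ 0 := by linarith
      have e3 : (n : ℝ) ^ 2 - 1 / 4 ≠ 0 := by nlinarith
      have e4 : (n : ℝ) ^ 2 - 1 / 4 = ((n : ℝ) - 1 / 2) * ((n : ℝ) + 1 - 1 / 2) := by ring
      rw [e4, neg_sub_neg, div_sub_div _ _ e1 e2]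
      congr 1
      ring
    rw [h5, one_div_pow]
    apply one_div_le_one_div_of_le
    · nlinarith
    · linarith
  have h2 : Ioo 6 b = Ico 7 b := by
    ext j
    simp only [mem_Ioo, mem_Ico]
    omega
  refine (Finset.sum_le_sum h1).trans ?_
  rw [h2, tele (fun j : ℕ => -(1 / ((j : ℝ) - 1 / 2))) 7 b (by omega)]
  have hbR : (7 : ℝ) ≤ b := by exact_mod_cast hb
  have h3 : 0 ≤ 1 / ((b : ℝ) - 1 / 2) := by
    apply div_nonneg zero_le_one
    linarith
  push_cast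
  norm_num at h3 ⊢
  linarith

/-- Partial summation for the primes up to `b`. -/
lemma small_abel (A : ℝ) (b : ℕ) (hb : 6 < b) (hA : 16 / 45 * Real.log b ≤ A) :
    ∑ p ∈ P7 b, Real.log p / ((p : ℝ) - 1) * (A * Real.log p - 8 / 45 * Real.log p ^ 2) ≤
      (Ls b + 1) * (A * Real.log b - 8 / 45 * Real.log b ^ 2) -
        (A * Real.log b ^ 2 / 2 - 16 / 135 * Real.log b ^ 3) +
        (A * Real.log 7 ^ 2 / 2 - 16 / 135 * Real.log 7 ^ 3) -
        (1 + Ls 6) * (A * Real.log 7 - 8 / 45 * Real.log 7 ^ 2) + A / 13 := by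
  set F : ℕ → ℝ := fun n => A * Real.log n - 8 / 45 * Real.log n ^ 2 with hF
  have hbR : (7 : ℝ) ≤ b := by exact_mod_cast hb
  have hlb : 0 ≤ Real.log b := Real.log_nonneg (by linarith)
  have hA0 : 0 ≤ A := by linarith
  have h1 := abel (fun k => if k.Prime then Real.log k / ((k : ℝ) - 1) else 0) F 6 b hb
  have h2 : ∑ n ∈ Ioc 6 b, (if n.Prime then Real.log n / ((n : ℝ) - 1) else 0) * F n =
      ∑ p ∈ P7 b, Real.log p / ((p : ℝ) - 1) *
        (A * Real.log p - 8 / 45 * Real.log p ^ 2) := by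
    have e1 : P7 b = (Ioc 6 b).filter Nat.Prime := by
      unfold P7
      congr 1
    rw [e1, Finset.sum_filter]
    apply Finset.sum_congr rfl
    intro n _
    split_ifs with h
    · rfl
    · ring
  rw [h2] at h1
  rw [h1, sum_prime_term 6 b hb.le]
  have h4 : ∑ n ∈ Ioo 6 b, (∑ k ∈ Ioc 6 n, (if k.Prime then Real.log k / ((k : ℝ) - 1) else 0)) *
      (F n - F (n + 1)) ≤ ∑ n ∈ Ioo 6 b,
        (((fun j : ℕ => -(A * Real.log j ^ 2 / 2 - 16 / 135 * Real.log j ^ 3)) (n + 1) -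
          (fun j : ℕ => -(A * Real.log j ^ 2 / 2 - 16 / 135 * Real.log j ^ 3)) n +
          A / 2 * (Real.log ((n : ℝ) + 1) - Real.log n) ^ 2) +
          (-1 - Ls 6) * (F n - F (n + 1))) := by
    apply Finset.sum_le_sum
    intro n hn
    rw [mem_Ioo] at hn
    rw [sum_prime_term 6 n hn.1.le]
    have hnR : (7 : ℝ) ≤ n := by
      have : 7 ≤ n := by omega
      exact_mod_cast this
    have e0 : 0 ≤ Real.log n := Real.log_nonneg (by linarith)
    have e1 := log_succ_ge n (by omega)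
    have e2 : Real.log ((n : ℝ) + 1) ≤ Real.log b := by
      apply Real.log_le_log (by linarith)
      have : n + 1 ≤ b := by omega
      exact_mod_cast this
    have e3 := Ls_lower n (by omega)
    have e4 := keySmall A (Real.log n) (Real.log ((n : ℝ) + 1)) e0 (by linarith)
    have e5 : F n = A * Real.log n - 8 / 45 * Real.log n ^ 2 := rfl
    have e6 : F (n + 1) = A * Real.log ((n : ℝ) + 1) - 8 / 45 * Real.log ((n : ℝ) + 1) ^ 2 := by
      rw [hF]; push_cast; rfl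
    have e7 : F n - F (n + 1) ≤ 0 := by
      rw [e5, e6]
      have : 0 ≤ (Real.log ((n : ℝ) + 1) - Real.log n) *
          (A - 8 / 45 * (Real.log n + Real.log ((n : ℝ) + 1))) := by
        apply mul_nonneg e1
        linarith
      nlinarith
    have e8 := mul_le_mul_of_nonpos_right e3 e7
    rw [← e5, ← e6] at e4
    push_cast
    linarith
  have h5 : ∑ n ∈ Ioo 6 b,
        (((fun j : ℕ => -(A * Real.log j ^ 2 / 2 - 16 / 135 * Real.log j ^ 3)) (n + 1) -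
          (fun j : ℕ => -(A * Real.log j ^ 2 / 2 - 16 / 135 * Real.log j ^ 3)) n +
          A / 2 * (Real.log ((n : ℝ) + 1) - Real.log n) ^ 2) +
          (-1 - Ls 6) * (F n - F (n + 1))) =
      (-(A * Real.log b ^ 2 / 2 - 16 / 135 * Real.log b ^ 3) +
        (A * Real.log 7 ^ 2 / 2 - 16 / 135 * Real.log 7 ^ 3)) +
        A / 2 * ∑ n ∈ Ioo 6 b, (Real.log ((n : ℝ) + 1) - Real.log n) ^ 2 +
        (-1 - Ls 6) * (F 7 - F b) := by
    rw [Finset.sum_add_distrib, Finset.sum_add_distrib, ← Finset.mul_sum, ← Finset.mul_sum]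
    have h6 := abel_single F 6 b hb
    have h7 : ∑ n ∈ Ioo 6 b, (F n - F (n + 1)) = F 7 - F b := by
      norm_num at h6 ⊢
      linarith
    have h8 : Ioo 6 b = Ico 7 b := by
      ext j
      simp only [mem_Ioo, mem_Ico]
      omega
    rw [h7, h8, tele (fun j : ℕ => -(A * Real.log j ^ 2 / 2 - 16 / 135 * Real.log j ^ 3)) 7 b
      (by omega)]
    push_cast
    ring
  rw [h5] at h4
  have h9 := sum_sq_log b hb
  have h10 : A / 2 * ∑ n ∈ Ioo 6 b, (Real.log ((n : ℝ) + 1) - Real.log n) ^ 2 ≤ A / 2 * (2 / 13) :=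
    mul_le_mul_of_nonneg_left h9 (by linarith)
  have e5 : F b = A * Real.log b - 8 / 45 * Real.log b ^ 2 := rfl
  have e6 : F 7 = A * Real.log 7 - 8 / 45 * Real.log 7 ^ 2 := by
    rw [hF]; push_cast; rfl
  rw [← e5, ← e6]
  linarith

/-- the numerical part -/
lemma small_num (A : ℝ) (hA : 0 ≤ A) :
    (A * Real.log 7 ^ 2 / 2 - 16 / 135 * Real.log 7 ^ 3) -
        (1 + Ls 6) * (A * Real.log 7 - 8 / 45 * Real.log 7 ^ 2) + A / 13 ≤ -3.176 * A + 0.908 := by
  rw [Ls_six]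
  obtain ⟨a3, b3⟩ := lg3
  obtain ⟨a5, b5⟩ := lg5
  obtain ⟨a7, b7⟩ := lg7
  have a2 := Real.log_two_gt_d9
  have b2 := Real.log_two_lt_d9
  set t := Real.log 7 with ht
  obtain ⟨L, hL⟩ : ∃ L, L = 1 + (Real.log 2 + Real.log 3 / 2 + Real.log 5 / 4) := ⟨_, rfl⟩
  rw [← hL]
  have hL1 : 2.64479 ≤ L := by rw [hL]; norm_num at a2 a3 a5 ⊢; linarith
  have hL2 : L ≤ 2.64488 := by rw [hL]; norm_num at b2 b3 b5 ⊢; linarith
  have c1 : A * t ^ 2 ≤ A * 3.786916 := by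
    apply mul_le_mul_of_nonneg_left _ hA
    have : t ^ 2 ≤ 1.9460 ^ 2 := pow_le_pow_left₀ (by norm_num at a7 ⊢; linarith) b7 2
    norm_num at this ⊢
    linarith
  have c2 : 7.3682 ≤ t ^ 3 := by
    have : (1.9459 : ℝ) ^ 3 ≤ t ^ 3 := pow_le_pow_left₀ (by norm_num) a7 3
    norm_num at this ⊢
    linarith
  have c3 : A * 5.14649 ≤ A * (L * t) := by
    apply mul_le_mul_of_nonneg_left _ hA
    have : (2.64479 : ℝ) * 1.9459 ≤ L * t := mul_le_mul hL1 a7 (by norm_num) (by linarith)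
    norm_num at this ⊢
    linarith
  have c4 : L * t ^ 2 ≤ 10.016 := by
    have : t ^ 2 ≤ 1.9460 ^ 2 := pow_le_pow_left₀ (by norm_num at a7 ⊢; linarith) b7 2
    have : L * t ^ 2 ≤ 2.64488 * 1.9460 ^ 2 := mul_le_mul hL2 this (by positivity) (by norm_num)
    norm_num at this ⊢
    linarith
  norm_num at c1 c2 c3 c4 ⊢
  nlinarith

theorem small_sum (hU : ∀ n : ℕ, 32760 ≤ n → Ls n ≤ Real.log n - 0.2) (m R : ℕ) (hm : 181 ≤ m)
    (hR : 7 * m ^ 2 ≤ R) (hR3 : 3 * Real.log m ≤ Real.log R) :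
    ∑ p ∈ P7 (m ^ 2 - 1), Np R p / p ≤
      (4 / 15 * Real.log R + 0.75) * (2 * Real.log m) ^ 2 / 2 - 8 / 135 * (2 * Real.log m) ^ 3 +
        0.8 * ((4 / 15 * Real.log R + 0.75) * (2 * Real.log m) - 8 / 45 * (2 * Real.log m) ^ 2) -
        3.17 * (4 / 15 * Real.log R + 0.75) + 0.91 := by
  obtain ⟨A, hA⟩ : ∃ A, A = 4 / 15 * Real.log R + 0.75 := ⟨_, rfl⟩
  rw [← hA]
  obtain ⟨M, hM⟩ : ∃ M, M = Real.log m := ⟨_, rfl⟩
  rw [← hM] at hR3 ⊢
  have hmR : (181 : ℝ) ≤ m := by exact_mod_cast hm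
  have hM0 : 0 ≤ M := by rw [hM]; exact Real.log_nonneg (by linarith)
  have hAM : 0.8 * M + 0.75 ≤ A := by
    rw [hA]; norm_num; linarith
  have hAM' : 4 / 5 * M + 3 / 4 ≤ A := by norm_num at hAM; linarith
  have hm2 : 32761 ≤ m ^ 2 := by nlinarith
  obtain ⟨b, hb⟩ : ∃ b, b = m ^ 2 - 1 := ⟨_, rfl⟩
  rw [← hb]
  have hb1 : 32760 ≤ b := by omega
  have hbm : b ≤ m ^ 2 := by omega
  obtain ⟨l, hl⟩ : ∃ l, l = Real.log b := ⟨_, rfl⟩
  have hbR : (32760 : ℝ) ≤ b := by exact_mod_cast hb1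
  have hl0 : 0 ≤ l := by rw [hl]; exact Real.log_nonneg (by linarith)
  have hl2 : l ≤ 2 * M := by
    rw [hl, hM]
    have h1 : Real.log b ≤ Real.log ((m : ℝ) ^ 2) := by
      apply Real.log_le_log (by linarith)
      exact_mod_cast hbm
    rw [Real.log_pow] at h1
    push_cast at h1
    exact h1
  have h1 : ∑ p ∈ P7 b, Np R p / p ≤ ∑ p ∈ P7 b, Real.log p / ((p : ℝ) - 1) *
      (A * Real.log p - 8 / 45 * Real.log p ^ 2) := by
    apply Finset.sum_le_sum
    intro p hp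
    rw [mem_P7] at hp
    have hpR : (7 : ℝ) ≤ p := by exact_mod_cast hp.2.1
    have e1 := Np_upper GG_up R p (by omega) (by omega)
    rw [← hA] at e1
    have e2 := Np_nonneg R p
    have e3 : Np R p / p ≤ Np R p / ((p : ℝ) - 1) := by
      apply div_le_div_of_nonneg_left e2 (by linarith) (by linarith)
    refine e3.trans ?_
    have e4 : Real.log p / ((p : ℝ) - 1) * (A * Real.log p - 8 / 45 * Real.log p ^ 2) =
        (A * Real.log p ^ 2 - 8 / 45 * Real.log p ^ 3) / ((p : ℝ) - 1) := by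
      ring
    rw [e4]
    exact div_le_div_of_nonneg_right e1 (by linarith)
  refine h1.trans ?_
  have h2 := small_abel A b (by omega) (by rw [← hl]; linarith)
  refine h2.trans ?_
  have h3 := small_num A (by linarith)
  have h4 := hU b hb1
  rw [← hl] at h4 ⊢
  have hh0 : 0 ≤ A * l - 8 / 45 * l ^ 2 := by
    have : 0 ≤ l * (A - 8 / 45 * l) := mul_nonneg hl0 (by linarith)
    nlinarith
  have h5 : (Ls b + 1) * (A * l - 8 / 45 * l ^ 2) ≤ (l + 0.8) * (A * l - 8 / 45 * l ^ 2) := by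
    apply mul_le_mul_of_nonneg_right _ hh0
    norm_num at h4 ⊢
    linarith
  have h6 : 0 ≤ (2 * M - l) * (A - 8 / 45 * (2 * M + l)) := by
    apply mul_nonneg (by linarith)
    linarith
  have h7 : 0 ≤ (2 * M - l) * ((2 * M + l) * (A / 2 - 8 / 135 * (2 * M + l)) +
      8 / 135 * (2 * M * l)) := by
    apply mul_nonneg (by linarith)
    apply add_nonneg
    · apply mul_nonneg (by linarith)
      linarith
    · positivity
  norm_num at h3 h5 h6 h7 ⊢
  linarith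

end Pool.Agent.Lib.MP_bf4c7f
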